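import Pool.Agent.X143.SD.Stm

/-! Part ITR of project SD (MP_28dd6c_pr): discrete Gronwall. -/

set_option autoImplicit false

open Finset

namespace Pool.Agent.X150.SD

open Pool.Agent.X143.SD

theorem phi_nonneg (n d c : ℕ) : 0 ≤ phi n d c := by
  unfold phi; positivity

theorem phi_le_one (n d c : ℕ) (hc : c ≤ n) : phi n d c ≤ 1 := by
  unfold phi
  have h : (c.descFactorial d : ℝ) ≤ (n.descFactorial d : ℝ) := by
    exact_mod_cast Nat.descFactorial_le d hc
  exact div_le_one_of_le₀ h (by positivity)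

theorem phi_top (n d : ℕ) (hd : d ≤ n) : phi n d n = 1 := by
  unfold phi
  have h : (n.descFactorial d : ℝ) ≠ 0 := by
    have : n.descFactorial d ≠ 0 := by
      intro h0
      rw [Nat.descFactorial_eq_zero_iff_lt] at h0
      omega
    exact_mod_cast this
  exact div_self h

theorem Top_mono (n d : ℕ) (F G : ℕ → ℕ → ℝ) (h : ∀ a b, a + b ≤ n → F a b ≤ G a b) (a b : ℕ)
    (hab : a + b ≤ n) : Top n d F a b ≤ Top n d G a b := by
  unfold Pool.Agent.X143.SD.Top
  have h0 := phi_nonneg n d (n - a - b)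
  have h1 := phi_le_one n d (n - a - b) (by omega)
  have e1 : phi n d (n - a - b) * F a b ≤ phi n d (n - a - b) * G a b :=
    mul_le_mul_of_nonneg_left (h a b hab) h0
  have e2 : (a : ℝ) / (a + b) * F (a - 1) (b + 1) ≤ (a : ℝ) / (a + b) * G (a - 1) (b + 1) := by
    rcases Nat.eq_zero_or_pos a with ha | ha
    · subst ha; simp
    · exact mul_le_mul_of_nonneg_left (h _ _ (by omega)) (by positivity)
  have e3 : (b : ℝ) / (a + b) * F a (b - 1) ≤ (b : ℝ) / (a + b) * G a (b - 1) :=
    mul_le_mul_of_nonneg_left (h _ _ (by omega)) (by positivity)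
  have e4 : (1 - phi n d (n - a - b)) *
      ((a : ℝ) / (a + b) * F (a - 1) (b + 1) + (b : ℝ) / (a + b) * F a (b - 1)) ≤
      (1 - phi n d (n - a - b)) *
      ((a : ℝ) / (a + b) * G (a - 1) (b + 1) + (b : ℝ) / (a + b) * G a (b - 1)) :=
    mul_le_mul_of_nonneg_left (add_le_add e2 e3) (by linarith)
  linarith

theorem Top_affine (n d : ℕ) (hd : d ≤ n) (F : ℕ → ℕ → ℝ) (x y : ℝ) (a b : ℕ) :
    Top n d (fun a b => x * F a b + y) a b = x * Top n d F a b + y := by
  unfold Pool.Agent.X143.SD.Top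
  rcases Nat.eq_zero_or_pos (a + b) with h0 | h0
  · have ha : a = 0 := by omega
    have hb : b = 0 := by omega
    subst ha; subst hb
    simp [phi_top n d hd]
  · have hne : (a : ℝ) + b ≠ 0 := by
      have : (0 : ℝ) < (a : ℝ) + b := by exact_mod_cast h0
      exact this.ne'
    have e : (a : ℝ) / (a + b) + (b : ℝ) / (a + b) = 1 := by
      rw [← add_div]; exact div_self hne
    have e' : (b : ℝ) / (a + b) = 1 - (a : ℝ) / (a + b) := by linarith
    rw [e']
    ring

theorem It_mono (n d : ℕ) (F G : ℕ → ℕ → ℝ) (h : ∀ a b, a + b ≤ n → F a b ≤ G a b) (i : ℕ) :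
    ∀ a b, a + b ≤ n → It n d F i a b ≤ It n d G i a b := by
  induction i with
  | zero => exact h
  | succ i ih => intro a b hab; exact Top_mono n d _ _ ih a b hab

theorem It_affine (n d : ℕ) (hd : d ≤ n) (F : ℕ → ℕ → ℝ) (x y : ℝ) (i : ℕ) :
    ∀ a b, a + b ≤ n → It n d (fun a b => x * F a b + y) i a b = x * It n d F i a b + y := by
  induction i with
  | zero => intro a b _; rfl
  | succ i ih =>
    intro a b hab
    have h1 : Top n d (It n d (fun a b => x * F a b + y) i) a b =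
        Top n d (fun a b => x * It n d F i a b + y) a b :=
      le_antisymm (Top_mono n d _ _ (fun a b h => (ih a b h).le) a b hab)
        (Top_mono n d _ _ (fun a b h => (ih a b h).ge) a b hab)
    show Top n d (It n d (fun a b => x * F a b + y) i) a b = x * Top n d (It n d F i) a b + y
    rw [h1, Top_affine n d hd]

theorem It_shift (n d : ℕ) (G : ℕ → ℕ → ℝ) (i : ℕ) :
    It n d (Top n d G) i = It n d G (i + 1) := by
  induction i with
  | zero => rfl
  | succ i ih =>
    show Top n d (It n d (Top n d G) i) = Top n d (It n d G (i + 1))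
    rw [ih]

theorem t_ITR (hone : S_ONE) : S_ITR := by
  intro d K hd hK
  obtain ⟨C, hC, hC1⟩ := hone d K hd hK
  refine ⟨2 * C * Real.exp (2 * C), by positivity, ?_⟩
  intro n hn α β hs
  obtain ⟨hα0, hβ0, hpos, hstep⟩ := hs
  have hn0 : (0 : ℝ) < n := by
    have : 0 < n := by omega
    exact_mod_cast this
  have hdn : d ≤ n := by omega
  set D : ℕ → ℝ := fun i =>
    It n d (fun a b => ((a : ℝ) / n - α i) ^ 2 + ((b : ℝ) / n - β i) ^ 2) i n 0 with hD
  have hD0 : D 0 = 0 := by
    show ((n : ℝ) / n - α 0) ^ 2 + (((0 : ℕ) : ℝ) / n - β 0) ^ 2 = 0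
    rw [hα0, hβ0, div_self hn0.ne']
    simp
  have hDs : ∀ i, i < 2 * n → D (i + 1) ≤ (1 + C / n) * D i + C / (n : ℝ) ^ 2 := by
    intro i hi
    obtain ⟨p1, p2, p3⟩ := hpos i hi.le
    obtain ⟨q1, q2⟩ := hstep i hi
    have key : ∀ a b, a + b ≤ n →
        Top n d (fun a b => ((a : ℝ) / n - α (i + 1)) ^ 2 + ((b : ℝ) / n - β (i + 1)) ^ 2) a b ≤
        (fun a b : ℕ => (1 + C / n) * (((a : ℝ) / n - α i) ^ 2 + ((b : ℝ) / n - β i) ^ 2) +
          C / (n : ℝ) ^ 2) a b := by
      intro a b hab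
      exact hC1 n hn a b hab (α i) (β i) (α (i + 1)) (β (i + 1)) p1 p2 p3 q1 q2
    have h1 := It_mono n d _ _ key i n 0 (by omega)
    rw [It_shift] at h1
    have h2 := It_affine n d hdn
      (fun a b => ((a : ℝ) / n - α i) ^ 2 + ((b : ℝ) / n - β i) ^ 2) (1 + C / n)
      (C / (n : ℝ) ^ 2) i n 0 (by omega)
    exact h1.trans h2.le
  have hr : (1 : ℝ) ≤ 1 + C / n := by
    have : 0 ≤ C / n := by positivity
    linarith
  have hind : ∀ i, i ≤ 2 * n → D i ≤ C / (n : ℝ) ^ 2 * i * (1 + C / n) ^ i := by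
    intro i
    induction i with
    | zero => intro _; rw [hD0]; simp
    | succ i ih =>
      intro hi
      have h1 := hDs i (by omega)
      have h2 := ih (by omega)
      have h3 : (1 + C / n) * D i ≤ (1 + C / n) * (C / (n : ℝ) ^ 2 * i * (1 + C / n) ^ i) :=
        mul_le_mul_of_nonneg_left h2 (by linarith)
      have h4 : (1 : ℝ) ≤ (1 + C / n) ^ (i + 1) := one_le_pow₀ hr
      have h5 : C / (n : ℝ) ^ 2 * 1 ≤ C / (n : ℝ) ^ 2 * (1 + C / n) ^ (i + 1) :=
        mul_le_mul_of_nonneg_left h4 (by positivity)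
      push_cast
      calc D (i + 1) ≤ (1 + C / n) * D i + C / (n : ℝ) ^ 2 := h1
        _ ≤ (1 + C / n) * (C / (n : ℝ) ^ 2 * i * (1 + C / n) ^ i) +
            C / (n : ℝ) ^ 2 * (1 + C / n) ^ (i + 1) := by linarith
        _ = C / (n : ℝ) ^ 2 * (i + 1) * (1 + C / n) ^ (i + 1) := by ring
  intro i hi
  have h1 := hind i hi
  have hi' : (i : ℝ) ≤ 2 * n := by exact_mod_cast hi
  have h2 : (1 + C / n) ^ i ≤ Real.exp (2 * C) := by
    have e1 : 1 + C / n ≤ Real.exp (C / n) := by
      have := Real.add_one_le_exp (C / n)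
      linarith
    have e2 : (1 + C / n) ^ i ≤ Real.exp (C / n) ^ i := pow_le_pow_left₀ (by linarith) e1 i
    rw [← Real.exp_nat_mul] at e2
    refine e2.trans (Real.exp_le_exp.mpr ?_)
    have : (i : ℝ) * (C / n) ≤ 2 * n * (C / n) := mul_le_mul_of_nonneg_right hi' (by positivity)
    refine this.trans (le_of_eq ?_)
    field_simp
  show D i ≤ 2 * C * Real.exp (2 * C) / n
  have h3 : C / (n : ℝ) ^ 2 * i * (1 + C / n) ^ i ≤
      C / (n : ℝ) ^ 2 * (2 * n) * Real.exp (2 * C) := by
    apply mul_le_mul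
    · exact mul_le_mul_of_nonneg_left hi' (by positivity)
    · exact h2
    · positivity
    · positivity
  refine h1.trans (h3.trans (le_of_eq ?_))
  field_simp

end Pool.Agent.X150.SD
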